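import Mathlib

set_option autoImplicit false

/-!
# A non-classical symmetric net with a rank 3 automorphism group

The symmetric `(3,2)`-net on `18` points that belongs to the generalized Hadamard matrix of order
`6` over the group of order `3` has a group of automorphisms which is transitive on the ordered
pairs of joined points and on the ordered pairs of distinct non-joined points.  It is not classical
because `18` is not a prime power.
-/

namespace Pool.Agent.Results.MP_36fbc5_co.NonClassicalRankThree

/-- The incidence structure with points `P`, blocks `L` and incidence `I` is an `(s, r, μ)`-net: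
there are `s ^ 2 * μ` points, different blocks have different point sets, every block has `s * μ`
points, and the blocks fall into `r` parallel classes (the fibres of `c`) such that every point is
on exactly one block of every class and blocks of different classes meet in exactly `μ` points. -/
structure IsNet {P L : Type} (I : P → L → Prop) (s r μ : ℕ) : Prop where
  card_points : Nat.card P = s ^ 2 * μ
  ext : ∀ l m : L, (∀ p, I p l ↔ I p m) → l = m
  card_block : ∀ l : L, Nat.card {p // I p l} = s * μ
  classes : ∃ c : L → Fin r, (∀ (i : Fin r) (p : P), ∃! l, c l = i ∧ I p l) ∧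
    ∀ l m : L, c l ≠ c m → Nat.card {p // I p l ∧ I p m} = μ

/-- A symmetric `(s, μ)`-net: an `(s, s * μ, μ)`-net whose dual is an `(s, s * μ, μ)`-net too. -/
def IsSymmetricNet {P L : Type} (I : P → L → Prop) (s μ : ℕ) : Prop :=
  IsNet I s (s * μ) μ ∧ IsNet (fun (l : L) (p : P) => I p l) s (s * μ) μ

/-- The permutation `g` of the points is an automorphism: it maps blocks to blocks. -/
def IsAut {P L : Type} (I : P → L → Prop) (g : Equiv.Perm P) : Prop :=
  ∃ h : Equiv.Perm L, ∀ p l, I p l ↔ I (g p) (h l)

/-- `p` and `q` are different and some block contains both. -/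
def Joined {P L : Type} (I : P → L → Prop) (p q : P) : Prop :=
  p ≠ q ∧ ∃ l, I p l ∧ I q l

/-- The structure is isomorphic to a classical symmetric net: the points are the vectors of `F ^ d`
for a finite field `F` and some `d ≥ 2`, and the blocks are the affine hyperplanes `f x = a` which
are not parallel to the line spanned by `u ≠ 0`, that is, `f u ≠ 0`. -/
def IsClassical {P L : Type} (I : P → L → Prop) : Prop :=
  ∃ (F : Type) (_ : Field F) (_ : Finite F) (d : ℕ) (u : Fin d → F) (e : P ≃ (Fin d → F)),
    2 ≤ d ∧ u ≠ 0 ∧
    (∀ l, ∃ (f : (Fin d → F) →ₗ[F] F) (a : F), f u ≠ 0 ∧ ∀ p, I p l ↔ f (e p) = a) ∧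
    (∀ (f : (Fin d → F) →ₗ[F] F) (a : F), f u ≠ 0 → ∃ l, ∀ p, I p l ↔ f (e p) = a)

/-- the blocks through the points, as bit masks -/
def tab : List ℕ := [37449, 74898, 149796, 148617, 39186, 74340, 141393, 49826, 70924, 82705, 136290, 43148, 71841, 140042, 50260, 42273, 84042, 135828]

/-- the incidence of the net -/
def inc (p l : Fin 18) : Bool := (tab.getD p.1 0).testBit l.1

/-- a map given by the digits in base `32` of a number -/
def ap (n : ℕ) (i : Fin 18) : Fin 18 :=
  ⟨((n >>> (5 * i.1)) % 32) % 18, Nat.mod_lt _ (by norm_num)⟩

/-- the numbers describe an automorphism and the inverse maps -/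
def ok (e : ℕ × ℕ × ℕ × ℕ) : Bool :=
  (List.finRange 18).all fun i =>
    (ap e.2.1 (ap e.1 i) == i) && (ap e.1 (ap e.2.1 i) == i) &&
    (ap e.2.2.2 (ap e.2.2.1 i) == i) && (ap e.2.2.1 (ap e.2.2.2 i) == i) &&
    (List.finRange 18).all fun l => inc i l == inc (ap e.1 i) (ap e.2.2.1 l)

/-- automorphisms that map `0` to the points -/
def tT : List (ℕ × ℕ × ℕ × ℕ) := [(677582165103132179601393696, 677582165103132179601393696, 677582165103132179601393696, 677582165103132179601393696),
  (360691341089666966364456961, 360691341089666966364456961, 556617645227230967234896071, 556617645227230967234896071),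
  (437989512080000337676698626, 517960199154353436333539393, 278367320642109091847124366, 122252698897009828677526890),
  (557788828079786128028210307, 557788828079786128028210307, 242060659610533526799222816, 242060659610533526799222816),
  (360694996892188430678627428, 520302457117304010586493091, 360682813706830018949562927, 41108388718643656848122055),
  (437985856277478873154719845, 361862416568271479471379587, 601455293890643919641980233, 637761955405597139064300906),
  (437991835253915207305535718, 557781516474736389729227907, 122267322475617831540164640, 242065423336796249583552544),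
  (480491989718052541730660551, 520309768722340129959809187, 480476150841745714208621103, 41121796786546745877668039),
  (557779193300821519788678344, 361867287512966630027302019, 601451637976556216061639084, 637748547337694050034754922),
  (318191186513956583106424137, 437988178893559142968136835, 122270978278135891226822688, 517956542793986125797558304),
  (600285326629828949306256682, 600285326477590817598050467, 600273143890752517779437004, 600270703155929638227091655),
  (677572530212597927364274475, 677576185646609525069059203, 481650989125031352804165135, 78599640968311157685331306),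
  (278374632771187026223446444, 481646000768395628532470915, 601447982174038156374981036, 637748547080750422348338307),
  (400512775744231077050333581, 480474818365393353164722339, 240896788400110159239686505, 480482129635731996331322666),
  (361856319848455203936286094, 398152238437566564868002947, 361850340719771446195757286, 198388214488508799581100295),
  (398167969682963433799042575, 78594877431359649108726915, 481654645150688700070381071, 78599641225254785655313539),
  (280712127004272452851222000, 77423694649714716930478243, 360690125423459615544286470, 317017680676814790274952490),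
  (242062982713539508573323761, 2467781730309462636598403, 242053347893903930204499273, 361852663447426005637470471)]

/-- automorphisms that fix `0` and map `3` to the points joined to `0` -/
def tH : List (ℕ × ℕ × ℕ × ℕ) := [(677582165103132179601393696, 677582165103132179601393696, 677582165103132179601393696, 677582165103132179601393696),
  (361866072370792943993358368, 481656968733798026645243936, 318187530042017255845771692, 198379569808598965733764425),
  (481656968733798026645243936, 361866072370792943993358368, 198379569808598965733764425, 318187530042017255845771692),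
  (677578509300607310451902496, 677578509300607310451902496, 677578509300607310451902496, 677578509300607310451902496),
  (481663065196657055149295648, 481663065196657055149295648, 198394193018674609211813193, 198394193018674609211813193),
  (361863631710448570444548128, 361863631710448570444548128, 318176562634466481517214124, 318176562634466481517214124),
  (557777860560648686356695072, 437991834919216490338256928, 557777860560648686356695072, 437991834919216490338256928),
  (601456402108433462828795936, 637760847522523337267054624, 198397848932769122254987494, 557774204311845241736375625),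
  (242070294575532875185489952, 557779192820745414017026080, 437973555460330592569247247, 78589888810906856695380396),
  (637754643841225181046900768, 601446649619920491789944864, 437977211374425105612421548, 318176562857598959945651331),
  (398170517673302960447588384, 517953995212843010204305440, 677574853386512797408728195, 677578508965908593069007078),
  (318185207392136050896209952, 398155894240091434121398304, 78597200192810498159780070, 198394193241807087120729615),
  (517961306706309485787842592, 198395526171318273307838496, 318180218548554184889746959, 78589888587774378890368131),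
  (278369868933344336352380960, 158573983919672377679743008, 557781516474736389729227907, 437991835253915207305535718),
  (437978544303912458575710240, 122264774779312861475997728, 78600856106898201532312905, 557774204088712763411842575)]

/-- automorphisms that fix `0` and map `1` to the points not joined to `0` -/
def tN : List (ℕ × ℕ × ℕ × ℕ) := [(677582165103132179601393696, 677582165103132179601393696, 677582165103132179601393696, 677582165103132179601393696),
  (556617645379478391104832576, 556617645379478391104832576, 400503023482131704065298595, 400503023482131704065298595)]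

abbrev I18 : Fin 18 → Fin 18 → Prop := fun p l => inc p l = true

/-- the group of all automorphisms -/
def autGroup : Subgroup (Equiv.Perm (Fin 18)) where
  carrier := {g | IsAut I18 g}
  mul_mem' := by
    rintro a b ⟨ha, h1⟩ ⟨hb, h2⟩
    refine ⟨ha * hb, fun p l => ?_⟩
    rw [h2 p l, h1 (b p) (hb l)]
    rfl
  one_mem' := ⟨1, fun p l => Iff.rfl⟩
  inv_mem' := by
    rintro a ⟨ha, h1⟩
    refine ⟨ha⁻¹, fun p l => ?_⟩
    rw [h1 (a⁻¹ p) (ha⁻¹ l)]
    simp

theorem exists_aut {e : ℕ × ℕ × ℕ × ℕ} (h : ok e = true) :
    ∃ g ∈ autGroup, ∀ i, g i = ap e.1 i := by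
  unfold ok at h
  rw [List.all_eq_true] at h
  simp only [List.mem_finRange, Bool.and_eq_true, beq_iff_eq, List.all_eq_true,
    forall_true_left] at h
  refine ⟨⟨ap e.1, ap e.2.1, fun i => (h i).1.1.1.1, fun i => (h i).1.1.1.2⟩, ?_, fun _ => rfl⟩
  refine ⟨⟨ap e.2.2.1, ap e.2.2.2, fun i => (h i).1.1.2, fun i => (h i).1.2⟩, fun p l => ?_⟩
  change inc p l = true ↔ inc (ap e.1 p) (ap e.2.2.1 l) = true
  rw [(h p).2 l]

theorem tT_ok : (tT.all fun e => ok e) = true := by decide +kernel
theorem tH_ok : (tH.all fun e => ok e) = true := by decide +kernel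
theorem tN_ok : (tN.all fun e => ok e) = true := by decide +kernel

theorem tT_hit : ∀ v : Fin 18, ∃ e ∈ tT, ap e.1 0 = v := by decide +kernel

theorem tH_hit : ∀ v : Fin 18, (v ≠ 0 ∧ ∃ l, inc 0 l = true ∧ inc v l = true) →
    ∃ e ∈ tH, ap e.1 0 = 0 ∧ ap e.1 3 = v := by decide +kernel

theorem tN_hit : ∀ v : Fin 18, (v ≠ 0 ∧ ¬ ∃ l, inc 0 l = true ∧ inc v l = true) →
    ∃ e ∈ tN, ap e.1 0 = 0 ∧ ap e.1 1 = v := by decide +kernel

theorem exT (v : Fin 18) : ∃ g ∈ autGroup, g 0 = v := by
  obtain ⟨e, he, hv⟩ := tT_hit v
  obtain ⟨g, hg, h⟩ := exists_aut (List.all_eq_true.1 tT_ok e he)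
  exact ⟨g, hg, by rw [h, hv]⟩

theorem exH (v : Fin 18) (hv : Joined I18 0 v) : ∃ g ∈ autGroup, g 0 = 0 ∧ g 3 = v := by
  obtain ⟨e, he, h0, h3⟩ := tH_hit v ⟨hv.1.symm, hv.2⟩
  obtain ⟨g, hg, h⟩ := exists_aut (List.all_eq_true.1 tH_ok e he)
  exact ⟨g, hg, by rw [h, h0], by rw [h, h3]⟩

theorem exN (v : Fin 18) (h0 : (0 : Fin 18) ≠ v) (hv : ¬ Joined I18 0 v) :
    ∃ g ∈ autGroup, g 0 = 0 ∧ g 1 = v := by
  obtain ⟨e, he, h0, h3⟩ := tN_hit v ⟨h0.symm, fun h => hv ⟨h0, h⟩⟩
  obtain ⟨g, hg, h⟩ := exists_aut (List.all_eq_true.1 tN_ok e he)
  exact ⟨g, hg, by rw [h, h0], by rw [h, h3]⟩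

theorem joined_map {g : Equiv.Perm (Fin 18)} (hg : g ∈ autGroup) (p q : Fin 18) :
    Joined I18 (g p) (g q) ↔ Joined I18 p q := by
  obtain ⟨h, hh⟩ := hg
  unfold Joined
  rw [g.injective.ne_iff]
  refine and_congr_right fun _ => ?_
  constructor
  · rintro ⟨l, h1, h2⟩
    refine ⟨h⁻¹ l, ?_, ?_⟩
    · rw [hh]; simpa using h1
    · rw [hh]; simpa using h2
  · rintro ⟨l, h1, h2⟩
    exact ⟨h l, (hh p l).1 h1, (hh q l).1 h2⟩

/-- move a pair of points to `(0, v)` and then to a standard pair -/
theorem trans_of {R : Fin 18 → Fin 18 → Prop} {w : Fin 18}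
    (hR : ∀ g ∈ autGroup, ∀ p q, R p q → R (g p) (g q))
    (hw : ∀ v, R 0 v → ∃ g ∈ autGroup, g 0 = 0 ∧ g w = v) (p q p' q' : Fin 18)
    (h : R p q) (h' : R p' q') : ∃ g ∈ autGroup, g p = p' ∧ g q = q' := by
  have key : ∀ p q, R p q → ∃ g ∈ autGroup, g 0 = p ∧ g w = q := by
    intro p q h
    obtain ⟨t, ht, ht0⟩ := exT p
    have h1 := hR t⁻¹ (autGroup.inv_mem ht) p q h
    have h2 : t⁻¹ p = 0 := by rw [← ht0]; simp
    rw [h2] at h1
    obtain ⟨k, hk, hk0, hkw⟩ := hw _ h1
    refine ⟨t * k, autGroup.mul_mem ht hk, ?_, ?_⟩
    · rw [Equiv.Perm.mul_apply, hk0, ht0]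
    · rw [Equiv.Perm.mul_apply, hkw]; simp
  obtain ⟨a, ha, ha0, ha1⟩ := key p q h
  obtain ⟨b, hb, hb0, hb1⟩ := key p' q' h'
  refine ⟨b * a⁻¹, autGroup.mul_mem hb (autGroup.inv_mem ha), ?_, ?_⟩
  · rw [Equiv.Perm.mul_apply, ← ha0, ← hb0]; simp
  · rw [Equiv.Perm.mul_apply, ← ha1, ← hb1]; simp

/-- the parallel class of a block, and the class of a point -/
def cls (l : Fin 18) : Fin (3 * 2) := ⟨l.1 / 3, by omega⟩

theorem net1 : IsNet I18 3 (3 * 2) 2 where
  card_points := by simp
  ext := by decide +kernel
  card_block := by
    intro l
    rw [Nat.card_eq_fintype_card]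
    revert l
    decide +kernel
  classes := by
    refine ⟨cls, ?_, ?_⟩
    · unfold ExistsUnique
      decide +kernel
    · intro l m
      rw [Nat.card_eq_fintype_card]
      revert l m
      decide +kernel

theorem net2 : IsNet (fun l p => I18 p l) 3 (3 * 2) 2 where
  card_points := by simp
  ext := by decide +kernel
  card_block := by
    intro l
    rw [Nat.card_eq_fintype_card]
    revert l
    decide +kernel
  classes := by
    refine ⟨cls, ?_, ?_⟩
    · unfold ExistsUnique
      decide +kernel
    · intro l m
      rw [Nat.card_eq_fintype_card]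
      revert l m
      decide +kernel

theorem not_classical : ¬ IsClassical I18 := by
  rintro ⟨F, _, _, d, u, e, hd, -, -, -⟩
  have := Fintype.ofFinite F
  have h1 : 18 = Fintype.card F ^ d := by
    have := Fintype.card_congr e
    simpa using this
  obtain ⟨p, k, hp, hk, hpk⟩ := FiniteField.isPrimePow_card F
  rw [← hpk, ← pow_mul] at h1
  have hp' := hp.nat_prime
  have h2 : 2 ∣ p ^ (k * d) := by rw [← h1]; norm_num
  have h3 : 3 ∣ p ^ (k * d) := by rw [← h1]; norm_num
  have h4 := (Nat.prime_dvd_prime_iff_eq Nat.prime_two hp').1 (Nat.prime_two.dvd_of_dvd_pow h2)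
  have h5 := (Nat.prime_dvd_prime_iff_eq Nat.prime_three hp').1
    (Nat.prime_three.dvd_of_dvd_pow h3)
  omega

/-- There are a symmetric `(3,2)`-net which is not classical and a group `G` of automorphisms of it
that is transitive on the ordered pairs of joined points and on the ordered pairs of distinct
points that are not joined. -/
theorem result : ∃ I : Fin 18 → Fin 18 → Prop, IsSymmetricNet I 3 2 ∧ ¬ IsClassical I ∧
    ∃ G : Subgroup (Equiv.Perm (Fin 18)), (∀ g ∈ G, IsAut I g) ∧
      (∀ p q p' q', Joined I p q → Joined I p' q' → ∃ g ∈ G, g p = p' ∧ g q = q') ∧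
      (∀ p q p' q', p ≠ q → ¬ Joined I p q → p' ≠ q' → ¬ Joined I p' q' →
        ∃ g ∈ G, g p = p' ∧ g q = q') := by
  refine ⟨I18, ⟨net1, net2⟩, not_classical, autGroup, fun g hg => hg, ?_, ?_⟩
  · intro p q p' q' h h'
    exact trans_of (R := Joined I18) (w := 3) (fun g hg p q h => (joined_map hg p q).2 h)
      (fun v hv => exH v hv) p q p' q' h h'
  · intro p q p' q' h1 h2 h1' h2'
    exact trans_of (R := fun p q => p ≠ q ∧ ¬ Joined I18 p q) (w := 1)
      (fun g hg p q h => ⟨g.injective.ne h.1, fun h3 => h.2 ((joined_map hg p q).1 h3)⟩)
      (fun v hv => exN v hv.1 hv.2) p q p' q' ⟨h1, h2⟩ ⟨h1', h2'⟩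

end Pool.Agent.Results.MP_36fbc5_co.NonClassicalRankThree
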